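import Mathlib

/-!
Vanishing of the homology of multiplication by a generic odd form in low degrees.
-/

namespace Pool.Agent.Lib.MP_a0e599_al

open ExteriorAlgebra Module

variable {K V I : Type*} [Field K] [AddCommGroup V] [Module K V]

lemma iota_mul_comm (v : V) {p : ℕ} {x : ExteriorAlgebra K V} (hx : x ∈ ⋀[K]^p V) :
    ι K v * x = (-1 : K) ^ p • (x * ι K v) := by
  induction hx using Submodule.pow_induction_on_left' with
  | algebraMap r => simp [Algebra.commutes]
  | add x y i hx hy ihx ihy => rw [mul_add, add_mul, smul_add, ihx, ihy]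
  | mem_mul m hm i x hx ih =>
    obtain ⟨w, rfl⟩ := hm
    have h1 : ι K v * ι K w = -(ι K w * ι K v) := eq_neg_of_add_eq_zero_left (ι_add_mul_swap v w)
    rw [← mul_assoc, h1, neg_mul, mul_assoc, ih, pow_succ, mul_smul_comm, mul_assoc]
    simp

lemma mul_comm_graded {p q : ℕ} {x y : ExteriorAlgebra K V} (hx : x ∈ ⋀[K]^p V)
    (hy : y ∈ ⋀[K]^q V) : y * x = (-1 : K) ^ (p * q) • (x * y) := by
  induction hy using Submodule.pow_induction_on_left' with
  | algebraMap r => simp [Algebra.commutes]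
  | add a b i ha hb iha ihb => rw [mul_add, add_mul, smul_add, iha, ihb]
  | mem_mul m hm i y hy ih =>
    obtain ⟨w, rfl⟩ := hm
    rw [mul_assoc, ih, mul_smul_comm, ← mul_assoc, iota_mul_comm w hx, smul_mul_assoc, smul_smul,
      Nat.mul_succ, pow_add, mul_assoc x]

lemma anticomm_of_odd {d : ℕ} (hd : Odd d) {x y : ExteriorAlgebra K V} (hx : x ∈ ⋀[K]^d V)
    (hy : y ∈ ⋀[K]^d V) : y * x = -(x * y) := by
  rw [mul_comm_graded hx hy, (hd.mul hd).neg_one_pow]
  simp

lemma sq_zero_of_odd [CharZero K] {d : ℕ} (hd : Odd d) {x : ExteriorAlgebra K V}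
    (hx : x ∈ ⋀[K]^d V) : x * x = 0 := by
  have h := anticomm_of_odd hd hx hx
  have h2 : (2 : K) • (x * x) = 0 := by
    rw [two_smul]; exact add_eq_zero_iff_eq_neg.mpr h
  exact (smul_eq_zero.mp h2).resolve_left two_ne_zero

variable [LinearOrder I] (b : Basis I K V)

lemma e_mem (U : Finset I) : b.ExteriorAlgebra U ∈ ⋀[K]^U.card V := by
  have := basis_eq_coe_basis b (Set.powersetCard.ofCard (s := U) rfl)
  rw [Set.powersetCard.val_ofCard] at this
  rw [this]
  exact Subtype.property _

lemma e_mul_of_not_disjoint {S T : Finset I} (h : ¬ Disjoint S T) :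
    b.ExteriorAlgebra S * b.ExteriorAlgebra T = 0 :=
  basis_mul_of_not_disjoint b (Set.powersetCard.ofCard (s := S) rfl)
    (Set.powersetCard.ofCard (s := T) rfl) h

lemma exists_sgn (S T : Finset I) : ∃ σ : ℤˣ, Disjoint S T →
    b.ExteriorAlgebra S * b.ExteriorAlgebra T = σ • b.ExteriorAlgebra (S ∪ T) := by
  by_cases h : Disjoint S T
  · have h1 := basis_mul_of_disjoint b (Set.powersetCard.ofCard (s := S) rfl)
      (Set.powersetCard.ofCard (s := T) rfl) h
    have h2 : ((Set.powersetCard.disjUnion (s := Set.powersetCard.ofCard (s := S) rfl)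
      (t := Set.powersetCard.ofCard (s := T) rfl) h : Set.powersetCard I _) : Finset I)
        = S ∪ T := Finset.disjUnion_eq_union S T h
    rw [h2] at h1
    exact ⟨_, fun _ => h1⟩
  · exact ⟨1, fun h' => absurd h' h⟩

/-- the sign in the product of two basis monomials -/
noncomputable def sgn (S T : Finset I) : ℤˣ := (exists_sgn b S T).choose

lemma e_mul_of_disjoint {S T : Finset I} (h : Disjoint S T) :
    b.ExteriorAlgebra S * b.ExteriorAlgebra T = sgn b S T • b.ExteriorAlgebra (S ∪ T) :=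
  (exists_sgn b S T).choose_spec h

/-- division by the monomial of `B` -/
noncomputable def dv (B : Finset I) : ExteriorAlgebra K V →ₗ[K] ExteriorAlgebra K V :=
  b.ExteriorAlgebra.constr K fun U =>
    if B ⊆ U then sgn b B (U \ B) • b.ExteriorAlgebra (U \ B) else 0

lemma dv_of_subset {B U : Finset I} (h : B ⊆ U) :
    dv b B (b.ExteriorAlgebra U) = sgn b B (U \ B) • b.ExteriorAlgebra (U \ B) := by
  simp [dv, h]

lemma dv_of_not_subset {B U : Finset I} (h : ¬ B ⊆ U) :
    dv b B (b.ExteriorAlgebra U) = 0 := by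
  simp [dv, h]

lemma units_smul_smul (σ : ℤˣ) (x : ExteriorAlgebra K V) : σ • σ • x = x := by
  rw [smul_smul, Int.units_mul_self, one_smul]

lemma map_units_smul (T : ExteriorAlgebra K V →ₗ[K] ExteriorAlgebra K V) (σ : ℤˣ)
    (x : ExteriorAlgebra K V) : T (σ • x) = σ • T x := by
  rcases Int.units_eq_one_or σ with rfl | rfl <;> simp

lemma mul_units_smul (σ : ℤˣ) (x y : ExteriorAlgebra K V) : x * (σ • y) = σ • (x * y) := by
  rcases Int.units_eq_one_or σ with rfl | rfl <;> simp

lemma dv_mul {B T : Finset I} (h : Disjoint B T) :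
    dv b B (b.ExteriorAlgebra B * b.ExteriorAlgebra T) = b.ExteriorAlgebra T := by
  rw [e_mul_of_disjoint b h, map_units_smul, dv_of_subset b Finset.subset_union_left,
    Finset.union_sdiff_cancel_left h, units_smul_smul]

lemma e_eq_of_subset {B U : Finset I} (h : B ⊆ U) :
    b.ExteriorAlgebra U = sgn b B (U \ B) • (b.ExteriorAlgebra B * b.ExteriorAlgebra (U \ B)) := by
  rw [e_mul_of_disjoint b Finset.disjoint_sdiff, units_smul_smul, Finset.union_sdiff_of_subset h]

lemma dv_cross {d : ℕ} (hd : Odd d) {B C : Finset I} (hB : B.card = d) (hC : C.card = d)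
    (hBC : Disjoint B C) (U : Finset I) :
    dv b B (b.ExteriorAlgebra C * b.ExteriorAlgebra U)
      + b.ExteriorAlgebra C * dv b B (b.ExteriorAlgebra U) = 0 := by
  by_cases h : B ⊆ U
  · have hcomm : b.ExteriorAlgebra C * b.ExteriorAlgebra B
        = -(b.ExteriorAlgebra B * b.ExteriorAlgebra C) :=
      anticomm_of_odd hd (hB ▸ e_mem b B) (hC ▸ e_mem b C)
    have key : dv b B (b.ExteriorAlgebra B * (b.ExteriorAlgebra C * b.ExteriorAlgebra (U \ B)))
        = b.ExteriorAlgebra C * b.ExteriorAlgebra (U \ B) := by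
      by_cases h2 : Disjoint C (U \ B)
      · rw [e_mul_of_disjoint b h2, mul_units_smul, map_units_smul, dv_mul]
        exact Finset.disjoint_union_right.mpr ⟨hBC, Finset.disjoint_sdiff⟩
      · rw [e_mul_of_not_disjoint b h2]; simp
    rw [dv_of_subset b h]
    conv_lhs => enter [1]; rw [e_eq_of_subset b h]
    rw [mul_units_smul, mul_units_smul, map_units_smul, ← mul_assoc, hcomm, neg_mul, map_neg,
      mul_assoc, key, ← smul_add, neg_add_cancel, smul_zero]
  · rw [dv_of_not_subset b h, mul_zero, add_zero]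
    by_cases h2 : Disjoint C U
    · rw [e_mul_of_disjoint b h2, map_units_smul, dv_of_not_subset, smul_zero]
      intro h3
      exact h fun x hx => (Finset.mem_union.mp (h3 hx)).resolve_left
        (Finset.disjoint_left.mp hBC hx)
    · rw [e_mul_of_not_disjoint b h2, map_zero]

lemma dv_self {B : Finset I} (hB : B.Nonempty) (U : Finset I) :
    dv b B (b.ExteriorAlgebra B * b.ExteriorAlgebra U)
      + b.ExteriorAlgebra B * dv b B (b.ExteriorAlgebra U)
      = if Disjoint B U ∨ B ⊆ U then b.ExteriorAlgebra U else 0 := by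
  by_cases h : B ⊆ U
  · have h2 : ¬ Disjoint B U := by
      obtain ⟨x, hx⟩ := hB
      exact fun h3 => Finset.disjoint_left.mp h3 hx (h hx)
    rw [e_mul_of_not_disjoint b h2, map_zero, zero_add, dv_of_subset b h, mul_units_smul,
      ← e_eq_of_subset b h, if_pos (Or.inr h)]
  · rw [dv_of_not_subset b h, mul_zero, add_zero]
    by_cases h2 : Disjoint B U
    · rw [dv_mul b h2, if_pos (Or.inl h2)]
    · rw [e_mul_of_not_disjoint b h2, map_zero, if_neg (by tauto)]

/-- all coordinates in the monomial basis are integers -/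
def IsInt (x : ExteriorAlgebra K V) : Prop :=
  ∀ W : Finset I, ∃ z : ℤ, b.ExteriorAlgebra.repr x W = (z : K)

lemma IsInt.zero : IsInt b 0 := fun _ => ⟨0, by simp⟩

lemma IsInt.add {x y : ExteriorAlgebra K V} (hx : IsInt b x) (hy : IsInt b y) :
    IsInt b (x + y) := fun W => by
  obtain ⟨z, hz⟩ := hx W
  obtain ⟨w, hw⟩ := hy W
  exact ⟨z + w, by simp [hz, hw]⟩

lemma IsInt.neg {x : ExteriorAlgebra K V} (hx : IsInt b x) : IsInt b (-x) := fun W => by
  obtain ⟨z, hz⟩ := hx W
  exact ⟨-z, by simp [hz]⟩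

lemma IsInt.smul {x : ExteriorAlgebra K V} (hx : IsInt b x) (σ : ℤˣ) : IsInt b (σ • x) := by
  rcases Int.units_eq_one_or σ with rfl | rfl
  · simpa using hx
  · simpa using hx.neg

lemma IsInt.sum {α : Type*} (s : Finset α) (x : α → ExteriorAlgebra K V)
    (hx : ∀ i ∈ s, IsInt b (x i)) : IsInt b (∑ i ∈ s, x i) :=
  Finset.sum_induction x (IsInt b) (fun _ _ => IsInt.add b) (IsInt.zero b) hx

lemma IsInt.e (U : Finset I) : IsInt b (b.ExteriorAlgebra U) := fun W => by
  by_cases h : U = W
  · exact ⟨1, by simp [h]⟩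
  · exact ⟨0, by simp [h]⟩

lemma IsInt.e_mul (S T : Finset I) : IsInt b (b.ExteriorAlgebra S * b.ExteriorAlgebra T) := by
  by_cases h : Disjoint S T
  · rw [e_mul_of_disjoint b h]; exact (IsInt.e b _).smul b _
  · rw [e_mul_of_not_disjoint b h]; exact IsInt.zero b

lemma IsInt.dv_e (B U : Finset I) : IsInt b (dv b B (b.ExteriorAlgebra U)) := by
  by_cases h : B ⊆ U
  · rw [dv_of_subset b h]; exact (IsInt.e b _).smul b _
  · rw [dv_of_not_subset b h]; exact IsInt.zero b

lemma IsInt.term (B S U : Finset I) : IsInt b (dv b B (b.ExteriorAlgebra S * b.ExteriorAlgebra U)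
      + b.ExteriorAlgebra S * dv b B (b.ExteriorAlgebra U)) := by
  refine IsInt.add b ?_ ?_
  · by_cases h : Disjoint S U
    · rw [e_mul_of_disjoint b h, map_units_smul]; exact (IsInt.dv_e b _ _).smul b _
    · rw [e_mul_of_not_disjoint b h, map_zero]; exact IsInt.zero b
  · by_cases h : B ⊆ U
    · rw [dv_of_subset b h, mul_units_smul]; exact (IsInt.e_mul b _ _).smul b _
    · rw [dv_of_not_subset b h, mul_zero]; exact IsInt.zero b

section Blocks

variable {k : ℕ} (B : Fin k → Finset I)

/-- the homotopy -/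
noncomputable def hom : ExteriorAlgebra K V →ₗ[K] ExteriorAlgebra K V := ∑ i, dv b (B i)

/-- the commutator of the homotopy with multiplication by `f` -/
noncomputable def lap (f : ExteriorAlgebra K V) : ExteriorAlgebra K V →ₗ[K] ExteriorAlgebra K V :=
  hom b B ∘ₗ LinearMap.mulLeft K f + LinearMap.mulLeft K f ∘ₗ hom b B

lemma lap_apply (f x : ExteriorAlgebra K V) :
    lap b B f x = ∑ i, (dv b (B i) (f * x) + f * dv b (B i) x) := by
  simp [lap, hom, Finset.sum_add_distrib]

lemma lap_sum {α : Type*} (s : Finset α) (c : α → K) (f : α → ExteriorAlgebra K V)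
    (x : ExteriorAlgebra K V) :
    lap b B (∑ a ∈ s, c a • f a) x = ∑ a ∈ s, c a • lap b B (f a) x := by
  simp [lap, Finset.sum_mul, Finset.sum_add_distrib]

lemma IsInt.lap (S U : Finset I) :
    IsInt b (lap b B (b.ExteriorAlgebra S) (b.ExteriorAlgebra U)) := by
  rw [lap_apply]
  exact IsInt.sum b _ _ fun i _ => IsInt.term b _ _ _

lemma lap_special {d : ℕ} (hd : Odd d) (hB : ∀ i, (B i).card = d)
    (hdisj : ∀ i j, i ≠ j → Disjoint (B i) (B j)) (U : Finset I) :
    lap b B (∑ j, b.ExteriorAlgebra (B j)) (b.ExteriorAlgebra U)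
      = ((Finset.univ.filter fun i => Disjoint (B i) U ∨ B i ⊆ U).card : K)
        • b.ExteriorAlgebra U := by
  rw [lap_apply]
  have h1 : ∀ i, dv b (B i) ((∑ j, b.ExteriorAlgebra (B j)) * b.ExteriorAlgebra U)
      + (∑ j, b.ExteriorAlgebra (B j)) * dv b (B i) (b.ExteriorAlgebra U)
      = if Disjoint (B i) U ∨ B i ⊆ U then b.ExteriorAlgebra U else 0 := by
    intro i
    rw [Finset.sum_mul, Finset.sum_mul, map_sum, ← Finset.sum_add_distrib,
      Finset.sum_eq_single i]
    · exact dv_self b (Finset.card_pos.mp (by rw [hB i]; exact hd.pos)) U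
    · intro j _ hj
      exact dv_cross b hd (hB i) (hB j) (hdisj i j hj.symm) U
    · simp
  simp_rw [h1]
  rw [← Finset.sum_filter, Finset.sum_const, Nat.cast_smul_eq_nsmul]

omit [LinearOrder I] in
lemma exists_disjoint_block [DecidableEq I]
    (hdisj : ∀ i j, i ≠ j → Disjoint (B i) (B j)) (U : Finset I) (hU : U.card < k) :
    ∃ i, Disjoint (B i) U := by
  by_contra hne
  push Not at hne
  have h1 : ∀ i, ∃ x, x ∈ B i ∧ x ∈ U := fun i => by
    simpa [Finset.not_disjoint_iff] using hne i
  choose g hg1 hg2 using h1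
  have hinj : Function.Injective g := by
    intro i j hij
    by_contra hne'
    exact Finset.disjoint_left.mp (hdisj i j hne') (hg1 i) (hij ▸ hg1 j)
  have : (Finset.univ : Finset (Fin k)).card ≤ U.card :=
    Finset.card_le_card_of_injOn g (fun i _ => hg2 i) hinj.injOn
  simp at this
  omega

lemma hom_e_mem {d : ℕ} (hB : ∀ i, (B i).card = d) (U : Finset I) :
    hom b B (b.ExteriorAlgebra U) ∈ (⨆ (p : ℕ) (_ : p + d = U.card), ⋀[K]^p V) := by
  simp only [hom, LinearMap.coe_sum, Finset.sum_apply]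
  refine Submodule.sum_mem _ fun i _ => ?_
  by_cases h : B i ⊆ U
  · rw [dv_of_subset b h]
    have h1 : (U \ B i).card + d = U.card := by
      rw [← hB i]; exact Finset.card_sdiff_add_card_eq_card h
    have h2 : b.ExteriorAlgebra (U \ B i) ∈ (⨆ (p : ℕ) (_ : p + d = U.card), ⋀[K]^p V) :=
      Submodule.mem_iSup_of_mem _ (Submodule.mem_iSup_of_mem h1 (e_mem b _))
    rcases Int.units_eq_one_or (sgn b (B i) (U \ B i)) with h3 | h3 <;> rw [h3]
    · simpa using h2
    · simpa using h2
  · rw [dv_of_not_subset b h]; exact Submodule.zero_mem _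

end Blocks

lemma eq_sum_of_mem [Fintype I] {r : ℕ} {g : ExteriorAlgebra K V} (hg : g ∈ ⋀[K]^r V) :
    ∃ a : Set.powersetCard I r → K, g = ∑ U, a U • b.ExteriorAlgebra U := by
  refine ⟨fun U => (b.exteriorPower r).repr ⟨g, hg⟩ U, ?_⟩
  have h := congrArg Subtype.val ((b.exteriorPower r).sum_repr ⟨g, hg⟩)
  simp only [AddSubmonoidClass.coe_finsetSum, SetLike.val_smul] at h
  simp_rw [basis_eq_coe_basis]
  exact h.symm

lemma det_ne_zero_of_generic [CharZero K] {σ J : Type*} [Fintype σ] [Fintype J] [DecidableEq J]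
    (N : σ → Matrix J J ℤ) (c c₀ : σ → K) (hc : AlgebraicIndependent ℚ c)
    (h₀ : (Matrix.of fun W U => ∑ s, c₀ s * (N s W U : K)).det ≠ 0) :
    (Matrix.of fun W U => ∑ s, c s * (N s W U : K)).det ≠ 0 := by
  set A : Matrix J J (MvPolynomial σ ℚ) :=
    Matrix.of fun W U => ∑ s, MvPolynomial.X s * (N s W U : MvPolynomial σ ℚ) with hA
  have hev : ∀ c' : σ → K, MvPolynomial.aeval c' A.det
      = (Matrix.of fun W U => ∑ s, c' s * (N s W U : K)).det := by
    intro c'
    rw [AlgHom.map_det]
    congr 1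
    ext W U
    simp [hA]
  rw [← hev] at h₀ ⊢
  intro h
  apply h₀
  have : A.det = 0 := hc (by rw [h, map_zero])
  rw [this, map_zero]

theorem lap_injective [CharZero K] [Fintype I] {k d r : ℕ} (B : Fin k → Finset I) (hd : Odd d)
    (hB : ∀ i, (B i).card = d) (hdisj : ∀ i j, i ≠ j → Disjoint (B i) (B j)) (hr : r < k)
    (c : Set.powersetCard I d → K) (hc : AlgebraicIndependent ℚ c)
    {g : ExteriorAlgebra K V} (hg : g ∈ ⋀[K]^r V)
    (h0 : lap b B (∑ s, c s • b.ExteriorAlgebra s) g = 0) : g = 0 := by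
  classical
  let N : Set.powersetCard I d → Matrix (Set.powersetCard I r) (Set.powersetCard I r) ℤ :=
    fun s W U => (IsInt.lap b B s U W).choose
  have hN : ∀ (s : Set.powersetCard I d) (W U : Set.powersetCard I r),
      b.ExteriorAlgebra.repr (lap b B (b.ExteriorAlgebra s) (b.ExteriorAlgebra U)) W
        = (N s W U : K) := fun s W U => (IsInt.lap b B s U W).choose_spec
  have hentry : ∀ (c' : Set.powersetCard I d → K) (W U : Set.powersetCard I r),
      ∑ s, c' s * (N s W U : K) = b.ExteriorAlgebra.repr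
        (lap b B (∑ s, c' s • b.ExteriorAlgebra s) (b.ExteriorAlgebra U)) W := by
    intro c' W U
    rw [lap_sum]
    simp [hN]
  let c₀ : Set.powersetCard I d → K := fun s => ∑ j, if s = Set.powersetCard.ofCard (hB j) then 1 else 0
  have hc₀ : ∑ s, c₀ s • b.ExteriorAlgebra s = ∑ j, b.ExteriorAlgebra (B j) := by
    simp only [c₀, Finset.sum_smul]
    rw [Finset.sum_comm]
    refine Finset.sum_congr rfl fun j _ => ?_
    simp
  have hdet₀ : (Matrix.of fun W U => ∑ s, c₀ s * (N s W U : K)).det ≠ 0 := by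
    have : (Matrix.of fun W U => ∑ s, c₀ s * (N s W U : K)) = Matrix.diagonal
        fun U : Set.powersetCard I r =>
          ((Finset.univ.filter fun i => Disjoint (B i) U ∨ B i ⊆ U).card : K) := by
      ext W U
      rw [Matrix.of_apply, hentry, hc₀, lap_special b B hd hB hdisj]
      by_cases h : W = U
      · subst h; simp
      · have h' : (U : Finset I) ≠ W := fun h2 => h (Subtype.ext h2).symm
        simp [h, h']
    rw [this, Matrix.det_diagonal]
    refine Finset.prod_ne_zero_iff.mpr fun U _ => ?_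
    obtain ⟨i, hi⟩ := exists_disjoint_block B hdisj U (by rw [Set.powersetCard.card_eq U]; exact hr)
    exact Nat.cast_ne_zero.mpr (Finset.card_ne_zero.mpr ⟨i, by simp [hi]⟩)
  have hdet := det_ne_zero_of_generic N c c₀ hc hdet₀
  obtain ⟨a, rfl⟩ := eq_sum_of_mem b hg
  have ha : (Matrix.of fun W U => ∑ s, c s * (N s W U : K)).mulVec a = 0 := by
    ext W
    have h1 := congrArg (fun x => b.ExteriorAlgebra.repr x W) h0
    simp only [map_sum, map_smul, map_zero, Finsupp.coe_finsetSum, Finset.sum_apply,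
      Finsupp.coe_smul, Pi.smul_apply, smul_eq_mul, Finsupp.coe_zero, Pi.zero_apply] at h1
    simp only [Matrix.mulVec, dotProduct, Matrix.of_apply, hentry, Pi.zero_apply]
    rw [← h1]
    exact Finset.sum_congr rfl fun U _ => mul_comm _ _
  have ha0 : a = 0 := Matrix.eq_zero_of_mulVec_eq_zero hdet ha
  simp [ha0]

theorem exact_of_blocks [CharZero K] [Fintype I] {k d r : ℕ} (B : Fin k → Finset I) (hd : Odd d)
    (hB : ∀ i, (B i).card = d) (hdisj : ∀ i j, i ≠ j → Disjoint (B i) (B j)) (hr : r < k)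
    (c : Set.powersetCard I d → K) (hc : AlgebraicIndependent ℚ c)
    (f : ExteriorAlgebra K V) (hf : f = ∑ s, c s • b.ExteriorAlgebra s) :
    (⋀[K]^r V) ⊓ LinearMap.ker (LinearMap.mulLeft K f)
      = (⨆ (p : ℕ) (_ : p + d = r), ⋀[K]^p V).map (LinearMap.mulLeft K f) := by
  classical
  have : Module.Finite K (ExteriorAlgebra K V) := Module.Finite.of_basis b.ExteriorAlgebra
  have hfd : f ∈ ⋀[K]^d V := by
    rw [hf]
    refine Submodule.sum_mem _ fun s _ => Submodule.smul_mem _ _ ?_
    have := e_mem b (s : Finset I)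
    rwa [Set.powersetCard.card_eq s] at this
  set Z := (⋀[K]^r V) ⊓ LinearMap.ker (LinearMap.mulLeft K f) with hZ
  set Bd := (⨆ (p : ℕ) (_ : p + d = r), ⋀[K]^p V).map (LinearMap.mulLeft K f) with hBd
  have hle : Bd ≤ Z := by
    rw [hBd, Submodule.map_le_iff_le_comap]
    refine iSup₂_le fun p hp x hx => ⟨?_, ?_⟩
    · have := SetLike.mul_mem_graded (A := fun i => ⋀[K]^i V) hfd hx
      rwa [add_comm, hp] at this
    · simp [← mul_assoc, sq_zero_of_odd hd hfd]
  have hmap : ∀ g ∈ Z, lap b B f g ∈ Bd := by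
    rintro g ⟨hg, hg0⟩
    have hg0' : f * g = 0 := hg0
    have : lap b B f g = LinearMap.mulLeft K f (hom b B g) := by simp [lap, hg0']
    rw [this]
    refine Submodule.mem_map_of_mem ?_
    obtain ⟨a, rfl⟩ := eq_sum_of_mem b hg
    rw [map_sum]
    refine Submodule.sum_mem _ fun U _ => ?_
    rw [map_smul]
    refine Submodule.smul_mem _ _ ?_
    have := hom_e_mem b B hB (U : Finset I)
    rwa [Set.powersetCard.card_eq U] at this
  have hinj : Function.Injective ((lap b B f).restrict hmap) := by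
    rw [← LinearMap.ker_eq_bot, LinearMap.ker_eq_bot']
    rintro ⟨g, hg⟩ h0
    have h1 : lap b B f g = 0 := congrArg Subtype.val h0
    exact Subtype.ext (lap_injective b B hd hB hdisj hr c hc hg.1 (hf ▸ h1))
  exact (Submodule.eq_of_le_of_finrank_le hle
    (LinearMap.finrank_le_finrank_of_injective hinj)).symm

/-- `k` pairwise disjoint blocks of size `d` in `Fin n` -/
lemma exists_blocks {n k d : ℕ} (h : d * k ≤ n) : ∃ B : Fin k → Finset (Fin n),
    (∀ i, (B i).card = d) ∧ ∀ i j, i ≠ j → Disjoint (B i) (B j) := by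
  classical
  have hcard : Fintype.card (Fin k × Fin d) ≤ Fintype.card (Fin n) := by
    simpa [mul_comm] using h
  obtain ⟨φ⟩ := Function.Embedding.nonempty_of_card_le hcard
  refine ⟨fun i => Finset.univ.image fun t : Fin d => φ (i, t), fun i => ?_, fun i j hij => ?_⟩
  · rw [Finset.card_image_of_injective]
    · simp
    · intro s t hst
      simpa using φ.injective hst
  · rw [Finset.disjoint_left]
    intro x hx hx'
    simp only [Finset.mem_image, Finset.mem_univ, true_and] at hx hx'
    obtain ⟨s, rfl⟩ := hx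
    obtain ⟨t, ht⟩ := hx'
    exact hij (congrArg Prod.fst (φ.injective ht)).symm

end Pool.Agent.Lib.MP_a0e599_al
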